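import Pool.Agent.V11243.TreeWD

/-!
# Almost Suslin trees and ladder system uniformizations

Under `◇⁺` (and already under `2 ^ ℵ₀ < 2 ^ ℵ₁`) for every ladder system `C` and every tree
`T ⊆ 2^{<ω₁}` with countable levels there is a monochromatic colouring of `C` such that, if it is
uniformized on some uncountable downward closed subset of `T`, then `T` has a stationary antichain.
-/

set_option autoImplicit false

open Set Cardinal Ordinal

namespace Pool.Agent.Results.MP_b963f4_lc.NoAlmostSuslin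

open Pool.Agent.Y128.WD (IsTree ht W)

/-- The well-ordered set `ω₁`. -/
abbrev Om : Type := (Ordinal.omega.{0} 1).ToType

/-- An element of `2^{<ω₁}`: a function from the set of the ordinals below some `dom < ω₁`
to `{0, 1}`. -/
@[ext]
structure Node where
  dom : Om
  val : Set.Iio dom → Bool

/-- the restriction of `t` to `ξ` -/
def Node.restrict (t : Node) (ξ : Om) (h : ξ ≤ t.dom) : Node :=
  ⟨ξ, fun η => t.val ⟨η.1, lt_of_lt_of_le η.2 h⟩⟩

/-- `2^{<ω₁}` is ordered by end-extension: `s ≤ t` if `dom s ≤ dom t` and `t` agrees with `s` on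
`dom s`. -/
instance : PartialOrder Node where
  le s t := ∃ h : s.dom ≤ t.dom, ∀ (ξ : Om) (hξ : ξ < s.dom),
    s.val ⟨ξ, hξ⟩ = t.val ⟨ξ, lt_of_lt_of_le hξ h⟩
  le_refl s := ⟨le_rfl, fun _ _ => rfl⟩
  le_trans := by
    rintro a b c ⟨h1, h2⟩ ⟨h3, h4⟩
    exact ⟨h1.trans h3, fun ξ hξ => (h2 ξ hξ).trans (h4 ξ _)⟩
  le_antisymm := by
    rintro ⟨a, f⟩ ⟨b, g⟩ ⟨h1, h2⟩ ⟨h3, h4⟩
    obtain rfl : a = b := le_antisymm h1 h3
    congr 1
    funext ξ
    exact h2 ξ.1 ξ.2

/-- `T` is closed under restriction. -/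
def ClosedUnderRestriction (T : Set Node) : Prop :=
  ∀ t ∈ T, ∀ (ξ : Om) (h : ξ ≤ t.dom), t.restrict ξ h ∈ T

/-- A ladder system: for every limit `α < ω₁`, the set `C α` is a cofinal subset
of `α` of order type `ω`, i.e. the range of a strictly increasing sequence cofinal in `α`. -/
def IsLadderSystem (C : Om → Set Om) : Prop :=
  ∀ α : Om, Order.IsSuccLimit α → ∃ e : ℕ → Om, StrictMono e ∧ Set.range e = C α ∧
    (∀ n, e n < α) ∧ ∀ β < α, ∃ n, β < e n

/-- An `ω`-colouring `f` (`f α ξ` is the colour of `ξ ∈ C α`) is monochromatic if for every limit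
`α < ω₁` the colour `f α ξ` is the same for all `ξ ∈ C α`. -/
def Monochromatic (C : Om → Set Om) (f : Om → Om → ℕ) : Prop :=
  ∀ α : Om, Order.IsSuccLimit α → ∃ n, ∀ ξ ∈ C α, f α ξ = n

/-- `h`, restricted to `S`, uniformizes `f`: for every `t ∈ S` of limit height `α`,
`h (t | ξ) = f α ξ` for all but finitely many `ξ ∈ C α`. -/
def Uniformizes (C : Om → Set Om) (f : Om → Om → ℕ) (S : Set Node) (h : Node → ℕ) : Prop :=
  ∀ t ∈ S, Order.IsSuccLimit t.dom →
    {ξ | ξ ∈ C t.dom ∧ ¬ ∃ hξ : ξ ≤ t.dom, h (t.restrict ξ hξ) = f t.dom ξ}.Finite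

/-- `A` is a stationary antichain: an antichain for which the set of the heights of its
nodes is stationary in `ω₁`. -/
def IsStationaryAntichain (A : Set Node) : Prop :=
  IsAntichain (· ≤ ·) A ∧ IsStationary {α : Om | ∃ t ∈ A, t.dom = α}

/-- The principle `◇⁺`. -/
def DiamondPlus : Prop :=
  ∃ W : Om → Set (Set Om), (∀ α, (W α).Countable) ∧
    ∀ X : Set Om, ∃ D : Set Om, IsClub D ∧
      ∀ α ∈ D, X ∩ Set.Iio α ∈ W α ∧ D ∩ Set.Iio α ∈ W α

theorem mk_Om : #Om = ℵ_ 1 := by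
  simp [Om]

theorem countable_Iio (x : Om) : (Set.Iio x).Countable := by
  have h1 : ∀ o : Ordinal.{0}, (ℵ_ 1).ord = o → ∀ x : o.ToType, #(Set.Iio x) < ℵ_ 1 := by
    rintro _ rfl x
    simpa using Cardinal.mk_Iio_lt x
  have h2 := h1 _ (Cardinal.ord_aleph 1) x
  rw [← Cardinal.succ_aleph0, Order.lt_succ_iff] at h2
  exact Cardinal.le_aleph0_iff_set_countable.1 h2

theorem exists_bound (ι : ℕ → Om) : ∃ α : Om, ∀ n, ι n < α := by
  have h1 : Ordinal.IsInitial (Ordinal.omega.{0} 1) := Ordinal.isInitial_omega 1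
  have hb : ¬ IsCofinal (Set.range ι) := by
    intro hc
    have h2 := Order.cof_le hc
    have h3 : Order.cof Om = ℵ_ 1 := by
      rw [Ordinal.cof_toType]
      simp
    rw [h3] at h2
    have h4 : #(Set.range ι) ≤ ℵ₀ := Cardinal.mk_range_le.trans (by simp)
    exact absurd (h2.trans h4) (not_le.2 Cardinal.aleph0_lt_aleph_one)
  rw [not_isCofinal_iff] at hb
  obtain ⟨a, ha⟩ := hb
  exact ⟨a, fun n => ha _ ⟨n, rfl⟩⟩

theorem ch_of_diamondPlus (h : DiamondPlus) : (2 : Cardinal.{0}) ^ ℵ₀ < 2 ^ ℵ_ 1 := by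
  obtain ⟨W, hW, hd⟩ := h
  obtain ⟨ι⟩ : Nonempty (ℕ ↪ Om) := by
    rw [← Cardinal.le_def, mk_Om, Cardinal.mk_nat]
    exact Cardinal.aleph0_le_aleph 1
  obtain ⟨α0, hα0⟩ := exists_bound ι
  have hsurj : Function.Surjective (fun p : (Σ α : Om, W α) => (ι ⁻¹' p.2.1 : Set ℕ)) := by
    intro X
    obtain ⟨D, hD, hDX⟩ := hd (ι '' X)
    obtain ⟨α, hα, hle⟩ := hD.isCofinal α0
    refine ⟨⟨α, ⟨_, (hDX α hα).1⟩⟩, ?_⟩
    have : ι '' X ∩ Set.Iio α = ι '' X := by
      rw [Set.inter_eq_left]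
      rintro _ ⟨n, -, rfl⟩
      exact (hα0 n).trans_le hle
    show ι ⁻¹' (ι '' X ∩ Set.Iio α) = X
    rw [this, Set.preimage_image_eq _ ι.injective]
  have h1 : #(Set ℕ) ≤ #(Σ α : Om, W α) := Cardinal.mk_le_of_surjective hsurj
  have h2 : #(Σ α : Om, W α) ≤ ℵ_ 1 := by
    rw [Cardinal.mk_sigma]
    calc Cardinal.sum (fun α : Om => #(W α)) ≤ Cardinal.sum (fun _ : Om => ℵ₀) :=
          Cardinal.sum_le_sum _ _ (fun α => Cardinal.le_aleph0_iff_set_countable.2 (hW α))
      _ = ℵ_ 1 * ℵ₀ := by rw [Cardinal.sum_const', mk_Om]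
      _ = ℵ_ 1 := Cardinal.mul_aleph0_eq (Cardinal.aleph0_le_aleph 1)
  have h3 : (2 : Cardinal.{0}) ^ ℵ₀ ≤ ℵ_ 1 := by
    have : #(Set ℕ) = 2 ^ ℵ₀ := by simp
    rw [← this]
    exact h1.trans h2
  exact h3.trans_lt (Cardinal.cantor _)

theorem succ_aleph0_ord : (Order.succ Cardinal.aleph0.{0}).ord = Ordinal.omega.{0} 1 := by
  rw [Cardinal.succ_aleph0, Cardinal.ord_aleph]

theorem club_image {α : Type*} {β : Type*} [LinearOrder α] [LinearOrder β] (e : α ≃o β)
    {s : Set β} (hs : IsClub s) : IsClub (e ⁻¹' s) := by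
  constructor
  · intro d hd hne hdir a ha
    show e a ∈ s
    refine hs.dirSupClosed (d := e '' d) ?_ (hne.image e) (.of_linearOrder _) ?_
    · rintro _ ⟨x, hx, rfl⟩
      exact hd hx
    · exact (OrderIso.isLUB_image' e).2 ha
  · intro a
    obtain ⟨b, hb, hle⟩ := hs.isCofinal (e a)
    refine ⟨e.symm b, ?_, ?_⟩
    · show e (e.symm b) ∈ s
      rw [e.apply_symm_apply]
      exact hb
    · rw [OrderIso.le_symm_apply]
      exact hle

theorem exists_iso : ∃ e : W Cardinal.aleph0.{0} ≃o Om,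
    ∀ x : Om, Ordinal.type (α := Set.Iio x) (· < ·) = (e.symm x).1 := by
  have h1 : ∀ o : Ordinal.{0}, (Order.succ Cardinal.aleph0.{0}).ord = o →
      ∃ e : W Cardinal.aleph0.{0} ≃o o.ToType,
        ∀ x : o.ToType, Ordinal.type (α := Set.Iio x) (· < ·) = (e.symm x).1 := by
    rintro _ rfl
    exact ⟨Ordinal.ToType.mk, fun x => rfl⟩
  exact h1 _ succ_aleph0_ord

section Sub

variable {T : Set Node}

theorem eq_restrict {s t : Node} (h : s ≤ t) : t.restrict s.dom h.1 = s := by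
  obtain ⟨a, f⟩ := s
  show (⟨a, _⟩ : Node) = ⟨a, f⟩
  congr 1
  funext ξ
  exact (h.2 ξ.1 ξ.2).symm

theorem restrict_le {t : Node} {ξ : Om} (h : ξ ≤ t.dom) : t.restrict ξ h ≤ t :=
  ⟨h, fun _ _ => rfl⟩

theorem dom_lt {s t : Node} (h : s < t) : s.dom < t.dom := by
  obtain ⟨h1, h2⟩ := h.le
  refine lt_of_le_of_ne h1 fun h3 => ?_
  apply h.ne
  have h4 : t ≤ s := ⟨h3.ge, fun ξ hξ => (h2 ξ (lt_of_lt_of_eq hξ h3.symm)).symm⟩
  exact le_antisymm h.le h4

theorem restrict_lt {t : Node} {ξ : Om} (h : ξ < t.dom) : t.restrict ξ h.le < t := by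
  refine lt_of_le_of_ne (restrict_le h.le) fun h3 => ?_
  have : ξ = t.dom := congrArg Node.dom h3
  exact h.ne this

/-- The predecessors of a node of `T` correspond to the elements of its domain. -/
def iioIso (hT : ClosedUnderRestriction T) (t : T) : Set.Iio t ≃o Set.Iio t.1.dom where
  toFun s := ⟨s.1.1.dom, dom_lt s.2⟩
  invFun ξ := ⟨⟨t.1.restrict ξ.1 (le_of_lt ξ.2), hT t.1 t.2 _ _⟩, restrict_lt ξ.2⟩
  left_inv s := by
    apply Subtype.ext
    apply Subtype.ext
    exact eq_restrict (le_of_lt (show s.1.1 < t.1 from s.2))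
  right_inv ξ := rfl
  map_rel_iff' := by
    rintro ⟨⟨a, ha⟩, ha'⟩ ⟨⟨b, hb⟩, hb'⟩
    show a.dom ≤ b.dom ↔ a ≤ b
    constructor
    · intro h
      obtain ⟨h1, h2⟩ := (show a ≤ t.1 from le_of_lt (show a < t.1 from ha'))
      obtain ⟨h3, h4⟩ := (show b ≤ t.1 from le_of_lt (show b < t.1 from hb'))
      exact ⟨h, fun ξ hξ => (h2 ξ hξ).trans (h4 ξ (lt_of_lt_of_le hξ h)).symm⟩
    · rintro ⟨h, -⟩
      exact h

/-- A set of nodes closed under restriction is a tree. -/
theorem isTree_of (hT : ClosedUnderRestriction T) : IsTree T :=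
  ⟨fun t => (iioIso hT t).toRelIsoLT.toRelEmbedding.isWellOrder⟩

end Sub

/-- **Theorem.** Assume `◇⁺`, or only `2 ^ ℵ₀ < 2 ^ ℵ₁`. Let `C` be a ladder system and let
`T ⊆ 2^{<ω₁}` be closed under restriction with countable levels. There is a monochromatic colouring
`f` of `C` with the two colours `0`, `1` such that, if `f` is uniformized by some `h : S → ω` on an
uncountable downward closed `S ⊆ T`, then `T` has a stationary antichain. -/
theorem result (hyp : DiamondPlus ∨ (2 : Cardinal.{0}) ^ ℵ₀ < 2 ^ ℵ_ 1)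
    (C : Om → Set Om) (hC : IsLadderSystem C)
    (T : Set Node) (hT : ClosedUnderRestriction T)
    (hcount : ∀ α : Om, {t | t ∈ T ∧ t.dom = α}.Countable) :
    ∃ f : Om → Om → ℕ, Monochromatic C f ∧ (∀ α ξ, f α ξ < 2) ∧
      ∀ (S : Set Node) (h : Node → ℕ), S ⊆ T → ClosedUnderRestriction S → ¬ S.Countable →
        Uniformizes C f S h → ∃ A ⊆ T, IsStationaryAntichain A := by
  classical
  have h2 : (2 : Cardinal.{0}) ^ ℵ₀ < 2 ^ ℵ_ 1 := hyp.elim ch_of_diamondPlus id
  have h2' : (2 : Cardinal.{0}) ^ Cardinal.aleph0.{0} < 2 ^ (Order.succ Cardinal.aleph0.{0}) := by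
    rw [Cardinal.succ_aleph0]
    exact h2
  have hWD := Pool.Agent.Y128.WD.weakDiamond_limits le_rfl h2'
  have hTree : IsTree T := isTree_of hT
  obtain ⟨e, he⟩ := exists_iso
  have hht : ∀ t : T, ht t = (e.symm t.1.dom).1 := by
    intro t
    rw [← he t.1.dom]
    exact RelIso.ordinalType_congr (iioIso hT t).toRelIsoLT
  have hht' : ∀ (t : T) (δ : W Cardinal.aleph0.{0}), ht t = δ.1 ↔ t.1.dom = e δ := by
    intro t δ
    rw [hht t]
    constructor
    · intro h3
      have : e.symm t.1.dom = δ := Subtype.ext h3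
      rw [← this, e.apply_symm_apply]
    · intro h3
      rw [h3, e.symm_apply_apply]
  have hlev : ∀ _ : Unit, Pool.Agent.Y128.WD.LevelsLE Cardinal.aleph0 T := by
    intro _ α
    by_cases hα : ∃ t : T, ht t = α
    · obtain ⟨t0, ht0⟩ := hα
      refine Cardinal.le_aleph0_iff_set_countable.2 ?_
      have hinj : Set.InjOn (Subtype.val : T → Node) {t : T | ht t = α} :=
        Subtype.val_injective.injOn
      refine Set.countable_of_injective_of_countable_image hinj ((hcount t0.1.dom).mono ?_)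
      rintro _ ⟨t, ht1, rfl⟩
      refine ⟨t.2, ?_⟩
      have h3 : ht t = (e.symm t0.1.dom).1 := by
        rw [← hht t0, ht0]
        exact ht1
      rw [(hht' t _).1 h3, e.apply_symm_apply]
    · have : IsEmpty {t : T // ht t = α} := ⟨fun t => hα ⟨t.1, t.2⟩⟩
      rw [Cardinal.mk_eq_zero]
      exact zero_le
  have hI : #Unit ≤ 2 ^ Cardinal.aleph0.{0} := Cardinal.mk_le_aleph0.trans (Cardinal.cantor _).le
  have hV : #ℕ ≤ 2 ^ Cardinal.aleph0.{0} := Cardinal.mk_le_aleph0.trans (Cardinal.cantor _).le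
  obtain ⟨g, hg⟩ := Pool.Agent.V11243.TreeWD.family le_rfl hWD hI (fun _ => T) hlev ℕ hV
    (fun _ s φ => decide ({ξ | ξ ∈ C s.1.dom ∧
      ¬ ∃ u : {u : T // u < s}, u.1.1.dom = ξ ∧ φ u = 1}.Finite))
  refine ⟨fun α _ => (g (e.symm α)).toNat, fun α _ => ⟨_, fun ξ _ => rfl⟩, fun α _ => ?_,
    fun S φ hST hS hunc hφ => ?_⟩
  · show (g (e.symm α)).toNat < 2
    cases g (e.symm α) <;> decide
  let S' : Set T := {t | t.1 ∈ S}
  let φ' : T → ℕ := fun t => φ t.1
  have htall : Pool.Agent.Y128.WD.IsTall Cardinal.aleph0 S' := by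
    refine ⟨?_, fun β => ?_⟩
    · intro s hs u hu
      have h3 : u.1 ≤ s.1 := hu
      have h4 := hS s.1 hs u.1.dom h3.1
      rw [eq_restrict h3] at h4
      exact h4
    · by_contra hcon
      push Not at hcon
      apply hunc
      have hsub : S ⊆ ⋃ γ ∈ Set.Iio (e β), {t | t ∈ T ∧ t.dom = γ} := by
        intro s hs
        have h3 := hcon ⟨s, hST hs⟩ hs
        rw [hht] at h3
        have h4 : e.symm s.dom < β := h3
        have h5 : s.dom < e β := by
          rw [← e.symm_apply_apply β] at h4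
          exact e.symm.lt_iff_lt.1 h4
        simp only [Set.mem_iUnion]
        exact ⟨s.dom, h5, hST hs, rfl⟩
      exact Set.Countable.mono hsub (Set.Countable.biUnion (countable_Iio _) fun γ _ => hcount γ)
  have hst := hg () S' φ' htall ?_
  · refine ⟨{a | ∃ ha : a ∈ T, (⟨a, ha⟩ : T) ∉ S' ∧ ∀ u < (⟨a, ha⟩ : T), u ∈ S'},
      fun a ha => ha.1, ?_, ?_⟩
    · rintro a ⟨haT, ha, -⟩ b ⟨hbT, -, hb⟩ hne hle
      exact ha (hb ⟨a, haT⟩ (lt_of_le_of_ne hle fun h3 => hne (congrArg Subtype.val h3)))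
    · intro D hD
      obtain ⟨δ, ⟨-, a, ha, haδ⟩, hδD⟩ := hst (club_image e hD)
      refine ⟨e δ, ⟨a.1, ⟨a.2, ha⟩, (hht' a δ).1 haδ⟩, hδD⟩
  · intro hbad
    obtain ⟨δ, hδL, s, hsS, hsδ, hne⟩ := hbad.nonempty
    apply hne
    have hdom : s.1.dom = e δ := (hht' s δ).1 hsδ
    have hlim : Order.IsSuccLimit s.1.dom := by
      rw [hdom]
      have h0 : Order.IsSuccLimit δ.1 := hδL
      have h3 : Order.IsSuccLimit δ :=
        (Set.principalSegIio (Order.succ Cardinal.aleph0.{0}).ord).isSuccLimit_apply_iff.1 h0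
      exact e.toInitialSeg.isSuccLimit_apply_iff.2 h3
    have hfin := hφ s.1 hsS hlim
    have h4 : e.symm s.1.dom = δ := by rw [hdom, e.symm_apply_apply]
    simp only [h4] at hfin
    have hinf : (C s.1.dom).Infinite := by
      obtain ⟨c, he1, he2, -⟩ := hC s.1.dom hlim
      rw [← he2]
      exact Set.infinite_range_of_injective he1.injective
    cases hgδ : g δ
    · rw [decide_eq_false_iff_not]
      intro hfin2
      apply hinf
      refine (hfin.union hfin2).subset ?_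
      intro ξ hξ
      by_contra hno
      rw [Set.mem_union, not_or] at hno
      obtain ⟨n1, n2⟩ := hno
      have m1 : ∃ hξ : ξ ≤ s.1.dom, φ (s.1.restrict ξ hξ) = (g δ).toNat := by
        by_contra hm
        exact n1 ⟨hξ, hm⟩
      have m2 : ∃ u : {u : T // u < s}, u.1.1.dom = ξ ∧ φ' u.1 = 1 := by
        by_contra hm
        exact n2 ⟨hξ, hm⟩
      obtain ⟨hξ, hu2⟩ := m1
      obtain ⟨v, hv1, hv2⟩ := m2
      subst hv1
      have h5 : s.1.restrict v.1.1.dom hξ = v.1.1 :=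
        eq_restrict (le_of_lt (show v.1.1 < s.1 from v.2))
      rw [h5, hgδ] at hu2
      have hv3 : φ v.1.1 = 1 := hv2
      rw [hu2] at hv3
      exact absurd hv3 (by decide)
    · rw [decide_eq_true_iff]
      refine hfin.subset ?_
      rintro ξ ⟨hξ, hno⟩
      refine ⟨hξ, ?_⟩
      rintro ⟨hu, hu2⟩
      apply hno
      have hlt : ξ < s.1.dom := by
        obtain ⟨c, he1, he2, he3, -⟩ := hC s.1.dom hlim
        rw [← he2] at hξ
        obtain ⟨n, rfl⟩ := hξ
        exact he3 n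
      refine ⟨⟨⟨s.1.restrict ξ hu, hT s.1 s.2 _ _⟩, restrict_lt hlt⟩, rfl, ?_⟩
      show φ (s.1.restrict ξ hu) = 1
      rw [hu2, hgδ]
      rfl

end Pool.Agent.Results.MP_b963f4_lc.NoAlmostSuslin
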